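import Mathlib

/-!
# Tools: back-and-forth in a countable set, a rigid ray, and the flipping action
-/

open Set Filter Topology

namespace Q214.DN

/-- Back-and-forth for finite partial bijections of a countable set. -/
theorem backForth {V : Type} [Countable V] [DecidableEq V] (Q : Finset (V × V) → Prop)
    (p0 : Finset (V × V)) (h0 : Q p0)
    (forth : ∀ p, Q p → ∀ a, ∃ b, Q (insert (a, b) p))
    (back : ∀ p, Q p → ∀ b, ∃ a, Q (insert (a, b) p))
    (hinj : ∀ p, Q p → ∀ s ∈ p, ∀ t ∈ p, (s.1 = t.1 ↔ s.2 = t.2)) :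
    ∃ e : V ≃ V, ∀ S : Finset V, ∃ p, Q p ∧ p0 ⊆ p ∧ ∀ a ∈ S, (a, e a) ∈ p := by
  classical
  have _ : Encodable V := Encodable.ofCountable V
  let P := {p : Finset (V × V) // Q p}
  let L : V → Order.Cofinal P := fun a =>
    { carrier := {p | ∃ b, (a, b) ∈ p.1}
      isCofinal := by
        intro p
        obtain ⟨b, hb⟩ := forth p.1 p.2 a
        exact ⟨⟨_, hb⟩, ⟨b, Finset.mem_insert_self _ _⟩, Finset.subset_insert _ _⟩ }
  let R : V → Order.Cofinal P := fun b =>
    { carrier := {p | ∃ a, (a, b) ∈ p.1}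
      isCofinal := by
        intro p
        obtain ⟨a, ha⟩ := back p.1 p.2 b
        exact ⟨⟨_, ha⟩, ⟨a, Finset.mem_insert_self _ _⟩, Finset.subset_insert _ _⟩ }
  let D : V ⊕ V → Order.Cofinal P := Sum.elim L R
  let I : Order.Ideal P := Order.idealOfCofinals ⟨p0, h0⟩ D
  have hI0 : (⟨p0, h0⟩ : P) ∈ I := Order.mem_idealOfCofinals _ D
  have hL : ∀ a, ∃ p ∈ I, ∃ b, (a, b) ∈ p.1 := by
    intro a
    obtain ⟨p, hp1, hp2⟩ := Order.cofinal_meets_idealOfCofinals (⟨p0, h0⟩ : P) D (Sum.inl a)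
    exact ⟨p, hp2, hp1⟩
  have hR : ∀ b, ∃ p ∈ I, ∃ a, (a, b) ∈ p.1 := by
    intro b
    obtain ⟨p, hp1, hp2⟩ := Order.cofinal_meets_idealOfCofinals (⟨p0, h0⟩ : P) D (Sum.inr b)
    exact ⟨p, hp2, hp1⟩
  choose pL hpL f hf using hL
  choose pR hpR g hg using hR
  have key : ∀ p ∈ I, ∀ q ∈ I, ∀ s ∈ p.1, ∀ t ∈ q.1, (s.1 = t.1 ↔ s.2 = t.2) := by
    intro p hp q hq s hs t ht
    obtain ⟨r, hr, hpr, hqr⟩ := I.directed p hp q hq
    exact hinj r.1 r.2 s (hpr hs) t (hqr ht)
  let e : V ≃ V :=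
    { toFun := f
      invFun := g
      left_inv := by
        intro a
        exact ((key _ (hpR (f a)) _ (hpL a) _ (hg (f a)) _ (hf a)).2 rfl)
      right_inv := by
        intro b
        exact ((key _ (hpL (g b)) _ (hpR b) _ (hf (g b)) _ (hg b)).1 rfl) }
  refine ⟨e, ?_⟩
  intro S
  have hS : ∃ p ∈ I, ∀ a ∈ S, (a, f a) ∈ p.1 := by
    induction S using Finset.induction_on with
    | empty => exact ⟨_, hI0, by simp⟩
    | insert a S ha ih =>
      obtain ⟨p, hp, hp2⟩ := ih
      obtain ⟨r, hr, hpr, hqr⟩ := I.directed p hp _ (hpL a)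
      refine ⟨r, hr, ?_⟩
      intro b hb
      rcases Finset.mem_insert.1 hb with rfl | hb
      · exact hqr (hf b)
      · exact hpr (hp2 b hb)
  obtain ⟨p, hp, hp2⟩ := hS
  obtain ⟨r, hr, hpr, hqr⟩ := I.directed p hp _ hI0
  exact ⟨r.1, r.2, hqr, fun a ha => hpr (hp2 a ha)⟩

/-- The extension property of a graph (the axioms of the Rado graph). -/
def EP {V : Type} (G : SimpleGraph V) : Prop :=
  ∀ (A E : Finset V), ∃ z, z ∉ A ∧ ∀ a ∈ A, (G.Adj a z ↔ a ∈ E)

/-- In a graph on a countable set with the extension property there is an induced one-way infinite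
path which separates all points outside of it. -/
theorem exists_ray {V : Type} [Countable V] [Inhabited V] [DecidableEq V] (G : SimpleGraph V)
    (hG : EP G) :
    ∃ v : ℕ → V, Function.Injective v ∧
      (∀ i j, G.Adj (v i) (v j) ↔ (i = j + 1 ∨ j = i + 1)) ∧
      ∀ z z', z ≠ z' → z ∉ range v → z' ∉ range v → ∃ m, G.Adj z (v m) ∧ ¬ G.Adj z' (v m) := by
  classical
  obtain ⟨w, hw⟩ := exists_surjective_nat (V × V)
  -- one step
  have step : ∀ (n : ℕ) (l : List V), ∃ z : V, z ∉ l ∧ z ≠ (w n).1 ∧ z ≠ (w n).2 ∧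
      (∀ a ∈ l, (G.Adj a z ↔ (l.head? = some a))) ∧
      ((w n).1 ∉ l → G.Adj (w n).1 z) ∧
      ((w n).2 ∉ l → (w n).1 ≠ (w n).2 → ¬ G.Adj (w n).2 z) := by
    intro n l
    obtain ⟨z, hz1, hz2⟩ := hG (l.toFinset ∪ {(w n).1, (w n).2})
      ((l.toFinset ∪ {(w n).1, (w n).2}).filter
        (fun a => (a ∈ l ∧ l.head? = some a) ∨ (a ∉ l ∧ a = (w n).1)))
    simp only [Finset.mem_union, List.mem_toFinset, Finset.mem_insert, Finset.mem_singleton,
      not_or, Finset.mem_filter] at hz1 hz2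
    refine ⟨z, hz1.1, hz1.2.1, hz1.2.2, ?_, ?_, ?_⟩
    · intro a ha
      rw [hz2 a (Or.inl ha)]
      constructor
      · rintro ⟨_, h | h⟩
        · exact h.2
        · exact absurd ha h.1
      · intro h
        exact ⟨Or.inl ha, Or.inl ⟨ha, h⟩⟩
    · intro h
      rw [hz2 _ (Or.inr (Or.inl rfl))]
      exact ⟨Or.inr (Or.inl rfl), Or.inr ⟨h, rfl⟩⟩
    · intro h hne
      rw [hz2 _ (Or.inr (Or.inr rfl))]
      rintro ⟨_, h' | h'⟩
      · exact h h'.1
      · exact hne h'.2.symm
  choose st h1 h2 h3 h4 h5 h6 using step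
  let L : ℕ → List V := fun n => Nat.rec [default] (fun n l => st n l :: l) n
  have hL0 : L 0 = [default] := rfl
  have hLs : ∀ n, L (n + 1) = st n (L n) :: L n := fun n => rfl
  let v : ℕ → V := fun n => (L n).headD default
  have hv0 : v 0 = default := rfl
  have hvs : ∀ n, v (n + 1) = st n (L n) := fun n => rfl
  have hhead : ∀ n, (L n).head? = some (v n) := by
    intro n
    cases n with
    | zero => rfl
    | succ n => rfl
  have hmem : ∀ n a, a ∈ L n ↔ ∃ j ≤ n, v j = a := by
    intro n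
    induction n with
    | zero =>
      intro a
      rw [hL0]
      simp only [List.mem_singleton, Nat.le_zero]
      constructor
      · rintro rfl
        exact ⟨0, rfl, rfl⟩
      · rintro ⟨j, rfl, h⟩
        exact h.symm
    | succ n ih =>
      intro a
      rw [hLs, List.mem_cons, ih]
      constructor
      · rintro (h | ⟨j, hj, h⟩)
        · exact ⟨n + 1, le_rfl, h.symm⟩
        · exact ⟨j, by omega, h⟩
      · rintro ⟨j, hj, h⟩
        rcases Nat.lt_or_ge j (n + 1) with h' | h'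
        · exact Or.inr ⟨j, by omega, h⟩
        · have : j = n + 1 := by omega
          subst this
          exact Or.inl h.symm
  have hnew : ∀ n j, j ≤ n → v j ≠ v (n + 1) := by
    intro n j hj h
    have := h1 n (L n)
    rw [← hvs n, ← h] at this
    exact this ((hmem n _).2 ⟨j, hj, rfl⟩)
  have hinj : Function.Injective v := by
    intro i j hij
    by_contra hne
    rcases Nat.lt_or_gt_of_ne hne with h | h
    · obtain ⟨k, rfl⟩ : ∃ k, j = k + 1 := ⟨j - 1, by omega⟩
      exact hnew k i (by omega) hij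
    · obtain ⟨k, rfl⟩ : ∃ k, i = k + 1 := ⟨i - 1, by omega⟩
      exact hnew k j (by omega) hij.symm
  have hadj : ∀ n j, j ≤ n → (G.Adj (v j) (v (n + 1)) ↔ j = n) := by
    intro n j hj
    have := h4 n (L n) (v j) ((hmem n _).2 ⟨j, hj, rfl⟩)
    rw [← hvs n] at this
    rw [this, hhead n]
    constructor
    · intro h
      exact (hinj (Option.some.inj h)).symm
    · rintro rfl
      rfl
  refine ⟨v, hinj, ?_, ?_⟩
  · intro i j
    rcases lt_trichotomy i j with h | h | h
    · obtain ⟨k, rfl⟩ : ∃ k, j = k + 1 := ⟨j - 1, by omega⟩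
      rw [hadj k i (by omega)]
      omega
    · subst h
      simp
    · obtain ⟨k, rfl⟩ : ∃ k, i = k + 1 := ⟨i - 1, by omega⟩
      rw [G.adj_comm, hadj k j (by omega)]
      omega
  · intro z z' hne hz hz'
    obtain ⟨n, hn⟩ := hw (z, z')
    refine ⟨n + 1, ?_, ?_⟩
    · have := h5 n (L n)
      rw [hn, ← hvs n] at this
      apply this
      intro h
      obtain ⟨j, _, hj⟩ := (hmem n _).1 h
      exact hz ⟨j, hj⟩
    · have := h6 n (L n)
      rw [hn, ← hvs n] at this
      apply this _ hne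
      intro h
      obtain ⟨j, _, hj⟩ := (hmem n _).1 h
      exact hz' ⟨j, hj⟩

/-- The one-way infinite path is rigid. -/
theorem ray_rigid (k : ℕ → ℕ) (hinj : Function.Injective k) (hsurj : Function.Surjective k)
    (h : ∀ i j, (i = j + 1 ∨ j = i + 1) ↔ (k i = k j + 1 ∨ k j = k i + 1)) : ∀ n, k n = n := by
  have h0 : k 0 = 0 := by
    by_contra hne
    obtain ⟨a, ha⟩ := hsurj (k 0 - 1)
    obtain ⟨b, hb⟩ := hsurj (k 0 + 1)
    have ha' := (h a 0).2 (by omega)
    have hb' := (h b 0).2 (by omega)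
    have hab : a = b := by omega
    subst hab
    omega
  intro n
  induction n using Nat.strong_induction_on with
  | _ n ih =>
    rcases n with _ | _ | n
    · exact h0
    · have h1 := (h 0 1).1 (by omega)
      rw [h0] at h1
      show k 1 = 1
      omega
    · have h1 := (h (n + 1) (n + 2)).1 (by omega)
      rw [ih (n + 1) (by omega)] at h1
      have h2 : k (n + 2) ≠ k n := fun h => by have := hinj h; omega
      rw [ih n (by omega)] at h2
      show k (n + 2) = n + 2
      omega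

end Q214.DN
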