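import Pool.Agent.Q214.DN.Graph

/-!
# The generic graph: three colours distinguish it, countably many Borel colours do not
-/

open Set Filter Topology

namespace Q214.DN

/-- The vertex set. -/
abbrev X : Type := {x : C // Gen x}

instance : StandardBorelSpace X := gen_measurable.standardBorel

/-- The graph. -/
def G : SimpleGraph X where
  Adj x y := RawAdj x.1 y.1
  symm := ⟨fun _ _ h => rawAdj_symm h⟩
  loopless := ⟨fun _ h => rawAdj_irrefl _ h⟩

lemma measurable_adj : MeasurableSet {p : X × X | G.Adj p.1 p.2} := by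
  have h1 : MeasurableSet {p : C × C | RawAdj p.1 p.2} := by
    have : {p : C × C | RawAdj p.1 p.2} = ⋃ γ : {γ : Finset ℕ // γ ≠ ∅},
        ({p : C × C | p.2 = fl p.1 γ.1} ∩ {p : C × C | p.1 (h γ.1) = true}) := by
      ext p
      simp only [RawAdj, mem_ofPred_eq, mem_iUnion, mem_inter_iff]
      constructor
      · rintro ⟨γ, h1, h2, h3⟩
        exact ⟨⟨γ, h1⟩, h2, h3⟩
      · rintro ⟨⟨γ, h1⟩, h2, h3⟩
        exact ⟨γ, h1, h2, h3⟩
    rw [this]
    refine MeasurableSet.iUnion fun γ => MeasurableSet.inter ?_ ?_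
    · exact (isClosed_eq continuous_snd ((continuous_fl γ.1).comp continuous_fst)).measurableSet
    · have hc : Continuous fun p : C × C => p.1 (h γ.1) :=
        (continuous_apply (A := fun _ : ℕ => Bool) (h γ.1)).comp continuous_fst
      exact ((isOpen_discrete {b | b = true}).preimage hc).measurableSet
  have h2 : Measurable (fun p : X × X => ((p.1.1, p.2.1) : C × C)) :=
    (measurable_subtype_coe.comp measurable_fst).prodMk (measurable_subtype_coe.comp measurable_snd)
  exact h2 h1

/-! ### Three colours suffice -/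

/-- The relation of having the same tail. -/
def tailSetoid : Setoid X where
  r x y := ∃ γ, y.1 = fl x.1 γ
  iseqv := by
    refine ⟨fun x => ⟨∅, (fl_empty _).symm⟩, ?_, ?_⟩
    · rintro x y ⟨γ, h⟩
      exact ⟨γ, by rw [h, fl_self]⟩
    · rintro x y z ⟨γ, h⟩ ⟨δ, h'⟩
      exact ⟨symmDiff γ δ, by rw [h', h, fl_fl]⟩

lemma adj_tail {x y : X} (hxy : G.Adj x y) : tailSetoid.r x y := by
  obtain ⟨γ, _, h, _⟩ := hxy
  exact ⟨γ, h⟩

/-- Any two points of a class have a common neighbour. -/
lemma common_nbr {x y : X} (hxy : tailSetoid.r x y) : ∃ z, G.Adj x z ∧ G.Adj y z := by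
  obtain ⟨γ, hγ⟩ := hxy
  obtain ⟨δ, hδ1, hδ2⟩ := ep_classGraph x.2 {∅, γ} {∅, γ}
  refine ⟨⟨fl x.1 δ, gen_fl x.2 δ⟩, ?_, ?_⟩
  · have := (hδ2 ∅ (by simp)).2 (by simp)
    show RawAdj x.1 (fl x.1 δ)
    have h2 : RawAdj (fl x.1 ∅) (fl x.1 δ) := this
    rwa [fl_empty] at h2
  · have := (hδ2 γ (by simp)).2 (by simp)
    show RawAdj y.1 (fl x.1 δ)
    rw [hγ]
    exact this

lemma iso_tail (φ : G ≃g G) {x y : X} (hxy : tailSetoid.r x y) : tailSetoid.r (φ x) (φ y) := by
  obtain ⟨z, h1, h2⟩ := common_nbr hxy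
  have h3 := adj_tail (φ.map_adj_iff.2 h1)
  have h4 := adj_tail (φ.map_adj_iff.2 h2)
  exact tailSetoid.iseqv.trans h3 (tailSetoid.iseqv.symm h4)

/-- The representative of the class. -/
noncomputable def rep (x : X) : X := (Quotient.mk tailSetoid x).out

lemma rep_rel (x : X) : tailSetoid.r (rep x) x := Quotient.exact (Quotient.out_eq _)

lemma rep_eq {x y : X} (hxy : tailSetoid.r x y) : rep x = rep y := by
  unfold rep
  rw [Quotient.sound (s := tailSetoid) hxy]

/-- The position of a point in its class. -/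
noncomputable def pos (x : X) : Finset ℕ := (rep_rel x).choose

lemma pos_spec (x : X) : x.1 = fl (rep x).1 (pos x) := (rep_rel x).choose_spec

/-- The rigid ray in the class of `r`. -/
noncomputable def ray (r : X) : ℕ → Finset ℕ := (exists_ray (classGraph r.1) (ep_classGraph r.2)).choose

lemma ray_inj (r : X) : Function.Injective (ray r) :=
  (exists_ray (classGraph r.1) (ep_classGraph r.2)).choose_spec.1

lemma ray_adj (r : X) (i j : ℕ) :
    RawAdj (fl r.1 (ray r i)) (fl r.1 (ray r j)) ↔ (i = j + 1 ∨ j = i + 1) :=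
  (exists_ray (classGraph r.1) (ep_classGraph r.2)).choose_spec.2.1 i j

lemma ray_sep (r : X) (z z' : Finset ℕ) (hne : z ≠ z') (hz : z ∉ range (ray r))
    (hz' : z' ∉ range (ray r)) : ∃ m, RawAdj (fl r.1 z) (fl r.1 (ray r m)) ∧
      ¬ RawAdj (fl r.1 z') (fl r.1 (ray r m)) :=
  (exists_ray (classGraph r.1) (ep_classGraph r.2)).choose_spec.2.2 z z' hne hz hz'

open Classical in
/-- The three-colouring: colour `0` off the rays, and the digits of the representative along the
rays. -/
noncomputable def col3 (x : X) : Fin 3 :=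
  if hx : ∃ n, ray (rep x) n = pos x then (if (rep x).1 hx.choose then 2 else 1) else 0

lemma col3_ray {x : X} {n : ℕ} (hx : ray (rep x) n = pos x) :
    col3 x = if (rep x).1 n then 2 else 1 := by
  have h1 : ∃ n, ray (rep x) n = pos x := ⟨n, hx⟩
  have h2 : h1.choose = n := ray_inj _ (h1.choose_spec.trans hx.symm)
  unfold col3
  rw [dif_pos h1, h2]

lemma col3_ne_zero {x : X} : col3 x ≠ 0 ↔ ∃ n, ray (rep x) n = pos x := by
  constructor
  · intro h
    by_contra hne
    unfold col3 at h
    rw [dif_neg hne] at h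
    exact h rfl
  · rintro ⟨n, hn⟩
    rw [col3_ray hn]
    split_ifs <;> decide

/-- The points of the ray. -/
noncomputable def pt (r : X) (n : ℕ) : X := ⟨fl r.1 (ray r n), gen_fl r.2 _⟩

lemma pt_rel (r : X) (n : ℕ) : tailSetoid.r r (pt r n) := ⟨ray r n, rfl⟩

lemma pos_pt {r : X} (hr : rep r = r) (n : ℕ) : rep (pt r n) = r ∧ pos (pt r n) = ray r n := by
  have h1 : rep (pt r n) = r := by rw [← rep_eq (pt_rel r n), hr]
  refine ⟨h1, ?_⟩
  have h2 := pos_spec (pt r n)
  rw [h1] at h2
  exact (fl_injective _ h2).symm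

lemma rep_rep (x : X) : rep (rep x) = rep x := rep_eq (rep_rel x)

lemma eq_of_rep_pos {x y : X} (h1 : rep x = rep y) (h2 : pos x = pos y) : x = y := by
  apply Subtype.ext
  rw [pos_spec x, pos_spec y, h1, h2]

lemma eq_pt {x : X} {n : ℕ} (hx : ray (rep x) n = pos x) : x = pt (rep x) n := by
  apply eq_of_rep_pos
  · exact (pos_pt (rep_rep x) n).1.symm
  · rw [(pos_pt (rep_rep x) n).2, hx]

theorem col3_distinguishing (φ : G ≃g G) (hφ : ∀ x, col3 (φ x) = col3 x) : ∀ x, φ x = x := by
  -- the action on the rays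
  have step1 : ∀ r : X, rep r = r → rep (φ r) = r ∧ ∀ n, φ (pt r n) = pt r n := by
    intro r hr
    set r' := rep (φ r) with hr'
    have hr'r : rep r' = r' := rep_rep _
    have hclass : ∀ n, rep (φ (pt r n)) = r' := fun n =>
      (rep_eq (iso_tail φ (pt_rel r n))).symm
    have hclass' : ∀ n, rep (φ.symm (pt r' n)) = r := by
      intro n
      have h1 : tailSetoid.r (φ r) (pt r' n) := by
        have h2 : tailSetoid.r r' (φ r) := rep_rel _
        exact tailSetoid.iseqv.trans (tailSetoid.iseqv.symm h2) (pt_rel r' n)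
      have h2 := iso_tail φ.symm h1
      have h3 : φ.symm (φ r) = r := φ.symm_apply_apply r
      rw [h3] at h2
      rw [← rep_eq h2, hr]
    have hcol : ∀ n, col3 (pt r n) ≠ 0 := fun n => by
      rw [col3_ne_zero]
      exact ⟨n, by rw [(pos_pt hr n).1, (pos_pt hr n).2]⟩
    have hcol' : ∀ n, col3 (pt r' n) ≠ 0 := fun n => by
      rw [col3_ne_zero]
      exact ⟨n, by rw [(pos_pt hr'r n).1, (pos_pt hr'r n).2]⟩
    have hk : ∀ n, ∃ m, φ (pt r n) = pt r' m := by
      intro n
      have h1 : col3 (φ (pt r n)) ≠ 0 := by rw [hφ]; exact hcol n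
      obtain ⟨m, hm⟩ := col3_ne_zero.1 h1
      refine ⟨m, ?_⟩
      rw [← hclass n]
      exact eq_pt hm
    have hl : ∀ n, ∃ m, φ.symm (pt r' n) = pt r m := by
      intro n
      have h1 : col3 (φ.symm (pt r' n)) ≠ 0 := by
        rw [← hφ, φ.apply_symm_apply]
        exact hcol' n
      obtain ⟨m, hm⟩ := col3_ne_zero.1 h1
      refine ⟨m, ?_⟩
      rw [← hclass' n]
      exact eq_pt hm
    choose k hk using hk
    choose l hl using hl
    have hptinj : ∀ {s : X} {i j : ℕ}, pt s i = pt s j → i = j := by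
      intro s i j hij
      exact ray_inj s (fl_injective _ (congrArg Subtype.val hij))
    have hkl : ∀ n, k (l n) = n := by
      intro n
      apply hptinj (s := r')
      rw [← hk, ← hl, φ.apply_symm_apply]
    have hlk : ∀ n, l (k n) = n := by
      intro n
      apply hptinj (s := r)
      rw [← hl, ← hk, φ.symm_apply_apply]
    have hkinj : Function.Injective k := fun i j hij => by
      rw [← hlk i, ← hlk j, hij]
    have hksurj : Function.Surjective k := fun n => ⟨l n, hkl n⟩
    have hkadj : ∀ i j, (i = j + 1 ∨ j = i + 1) ↔ (k i = k j + 1 ∨ k j = k i + 1) := by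
      intro i j
      rw [← ray_adj r i j, ← ray_adj r' (k i) (k j)]
      have h1 : G.Adj (φ (pt r i)) (φ (pt r j)) ↔ G.Adj (pt r i) (pt r j) := φ.map_adj_iff
      rw [hk, hk] at h1
      exact h1.symm
    have hkid := ray_rigid k hkinj hksurj hkadj
    have hrr : r' = r := by
      apply Subtype.ext
      funext n
      have h1 := hφ (pt r n)
      rw [hk, hkid, col3_ray (n := n) (x := pt r n) (by rw [(pos_pt hr n).1, (pos_pt hr n).2]),
        col3_ray (n := n) (x := pt r' n) (by rw [(pos_pt hr'r n).1, (pos_pt hr'r n).2]),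
        (pos_pt hr n).1, (pos_pt hr'r n).1] at h1
      cases h2 : r'.1 n <;> cases h3 : r.1 n <;> simp [h2, h3] at h1 ⊢
    refine ⟨hrr, ?_⟩
    intro n
    rw [hk, hkid, hrr]
  intro x
  obtain ⟨h1, h2⟩ := step1 (rep x) (rep_rep x)
  have hrep : rep (φ x) = rep x := by
    have := rep_eq (iso_tail φ (rep_rel x))
    rw [← this, h1]
  by_cases hx : ∃ n, ray (rep x) n = pos x
  · obtain ⟨n, hn⟩ := hx
    rw [eq_pt hn]
    exact h2 n
  · have hx' : ¬ ∃ n, ray (rep (φ x)) n = pos (φ x) := by
      rw [← col3_ne_zero, hφ, col3_ne_zero]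
      exact hx
    rw [hrep] at hx'
    by_contra hne
    have hposne : pos x ≠ pos (φ x) := fun h => hne (eq_of_rep_pos hrep.symm h).symm
    obtain ⟨m, hm1, hm2⟩ := ray_sep (rep x) (pos x) (pos (φ x)) hposne hx hx'
    rw [← pos_spec x] at hm1
    have hm3 : fl (rep x).1 (pos (φ x)) = (φ x).1 := by
      rw [← hrep]
      exact (pos_spec (φ x)).symm
    rw [hm3] at hm2
    have hm4 : G.Adj x (pt (rep x) m) := hm1
    have hm5 := φ.map_adj_iff.2 hm4
    rw [h2 m] at hm5
    exact hm2 hm5

/-! ### Countably many Borel colours do not suffice -/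

lemma symm_eq_swap {V : Type} [DecidableEq V] (p : Finset (V × V)) (a b : V) :
    insert (a, b) p = (insert (b, a) (p.image Prod.swap)).image Prod.swap := by
  rw [Finset.image_insert, Finset.image_image]
  simp

theorem not_distinguishing (c : X → ℕ) (hc : Measurable c) :
    ∃ φ : G ≃g G, (∃ x, φ x ≠ x) ∧ ∀ x, c (φ x) = c x := by
  classical
  let B : ℕ → Set C := fun i => Subtype.val '' (c ⁻¹' {i})
  have hB : ∀ i, MeasurableSet (B i) := fun i =>
    (MeasurableEmbedding.subtype_coe gen_measurable).measurableSet_image.2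
      (hc (measurableSet_singleton i))
  choose U hU hBU using fun i => (hB i).residualEq_isOpen
  have hev : ∀ᶠ x in residual C, Gen x ∧ ∀ (γ : Finset ℕ) (i : ℕ), (fl x γ ∈ B i ↔ fl x γ ∈ U i) := by
    refine Filter.Eventually.and gen_residual ?_
    rw [eventually_countable_forall]
    intro γ
    rw [eventually_countable_forall]
    intro i
    have h1 : ∀ᶠ x in residual C, (x ∈ B i ↔ x ∈ U i) := by
      filter_upwards [hBU i] with x hx
      exact iff_of_eq hx
    exact (tendsto_residual_of_isOpenMap (continuous_fl γ) (flH γ).isOpenMap).eventually h1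
  obtain ⟨x, hx, hxB⟩ := (dense_of_mem_residual hev).nonempty
  -- the colours along the class
  let col : Finset ℕ → ℕ := fun γ => c ⟨fl x γ, gen_fl hx γ⟩
  have hcolB : ∀ γ i, fl x γ ∈ B i ↔ col γ = i := by
    intro γ i
    constructor
    · rintro ⟨y, hy, hy2⟩
      have : y = ⟨fl x γ, gen_fl hx γ⟩ := Subtype.ext hy2
      rw [this] at hy
      exact hy
    · intro h
      exact ⟨⟨fl x γ, gen_fl hx γ⟩, h, rfl⟩
  have hext : ∀ (A E : Finset (Finset ℕ)) (γ₀ : Finset ℕ), ∃ γ, γ ∉ A ∧
      (∀ α ∈ A, ((classGraph x).Adj α γ ↔ α ∈ E)) ∧ col γ = col γ₀ := by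
    intro A E γ₀
    have h1 : fl x γ₀ ∈ U (col γ₀) := (hxB _ _).1 ((hcolB _ _).2 rfl)
    obtain ⟨m, hm⟩ := cylinder_in_open (hU _) h1
    obtain ⟨γ, h2, h3, h4⟩ := ext_cyl hx A E m (fl x γ₀)
    exact ⟨γ, h2, h3, (hcolB _ _).1 ((hxB _ _).2 (hm _ h4))⟩
  -- finite partial automorphisms
  let Q : Finset (Finset ℕ × Finset ℕ) → Prop := fun p =>
    (∀ s ∈ p, col s.1 = col s.2) ∧ ∀ s ∈ p, ∀ t ∈ p, (s.1 = t.1 ↔ s.2 = t.2) ∧
      ((classGraph x).Adj s.1 t.1 ↔ (classGraph x).Adj s.2 t.2)
  have forth : ∀ p, Q p → ∀ a, ∃ b, Q (insert (a, b) p) := by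
    intro p hp a
    by_cases ha : ∃ s ∈ p, s.1 = a
    · obtain ⟨s, hs, rfl⟩ := ha
      refine ⟨s.2, ?_⟩
      have : (s.1, s.2) ∈ p := hs
      rw [Finset.insert_eq_of_mem this]
      exact hp
    · push Not at ha
      obtain ⟨b, hb1, hb2, hb3⟩ := hext (p.image Prod.snd)
        ((p.filter (fun s => (classGraph x).Adj s.1 a)).image Prod.snd) a
      have hb4 : ∀ s ∈ p, ((classGraph x).Adj s.1 a ↔ (classGraph x).Adj s.2 b) := by
        intro s hs
        rw [hb2 s.2 (Finset.mem_image_of_mem _ hs), Finset.mem_image]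
        constructor
        · intro h
          exact ⟨s, Finset.mem_filter.2 ⟨hs, h⟩, rfl⟩
        · rintro ⟨t, ht, hts⟩
          rw [Finset.mem_filter] at ht
          have := ((hp.2 t ht.1 s hs).1).2 hts
          rw [← this]
          exact ht.2
      refine ⟨b, ?_, ?_⟩
      · intro s hs
        rcases Finset.mem_insert.1 hs with rfl | hs
        · exact hb3.symm
        · exact hp.1 s hs
      · intro s hs t ht
        rcases Finset.mem_insert.1 hs with rfl | hs <;> rcases Finset.mem_insert.1 ht with rfl | ht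
        · simp
        · refine ⟨⟨fun h => absurd h.symm (ha t ht), fun h => ?_⟩, ?_⟩
          · exfalso
            apply hb1
            rw [Finset.mem_image]
            exact ⟨t, ht, h.symm⟩
          · rw [(classGraph x).adj_comm, (classGraph x).adj_comm b]
            exact hb4 t ht
        · refine ⟨⟨fun h => absurd h (ha s hs), fun h => ?_⟩, hb4 s hs⟩
          exfalso
          apply hb1
          rw [Finset.mem_image]
          exact ⟨s, hs, h⟩
        · exact hp.2 s hs t ht
  have hswap : ∀ p, Q p → Q (p.image Prod.swap) := by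
    intro p hp
    constructor
    · intro s hs
      obtain ⟨t, ht, rfl⟩ := Finset.mem_image.1 hs
      exact (hp.1 t ht).symm
    · intro s hs s' hs'
      obtain ⟨t, ht, rfl⟩ := Finset.mem_image.1 hs
      obtain ⟨t', ht', rfl⟩ := Finset.mem_image.1 hs'
      exact ⟨(hp.2 t ht t' ht').1.symm, (hp.2 t ht t' ht').2.symm⟩
  have back : ∀ p, Q p → ∀ b, ∃ a, Q (insert (a, b) p) := by
    intro p hp b
    obtain ⟨a, ha⟩ := forth _ (hswap p hp) b
    refine ⟨a, ?_⟩
    rw [symm_eq_swap]
    exact hswap _ ha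
  obtain ⟨b₀, hb1, -, hb3⟩ := hext {∅} ∅ ∅
  have hb1' : b₀ ≠ ∅ := fun h => hb1 (by rw [h]; simp)
  have h0 : Q {(∅, b₀)} := by
    constructor
    · intro s hs
      rw [Finset.mem_singleton] at hs
      subst hs
      exact hb3.symm
    · intro s hs t ht
      rw [Finset.mem_singleton] at hs ht
      subst hs
      subst ht
      simp
  obtain ⟨e, he⟩ := backForth Q {(∅, b₀)} h0 forth back
    (fun p hp s hs t ht => (hp.2 s hs t ht).1)
  have he0 : e ∅ = b₀ := by
    obtain ⟨p, hp, hp0, hp1⟩ := he {∅}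
    have h1 := hp1 ∅ (by simp)
    have h2 : ((∅, b₀) : Finset ℕ × Finset ℕ) ∈ p := hp0 (by simp)
    exact ((hp.2 _ h1 _ h2).1).1 rfl
  have hecol : ∀ γ, col (e γ) = col γ := by
    intro γ
    obtain ⟨p, hp, hp0, hp1⟩ := he {γ}
    exact (hp.1 _ (hp1 γ (by simp))).symm
  have headj : ∀ α β, (classGraph x).Adj (e α) (e β) ↔ (classGraph x).Adj α β := by
    intro α β
    obtain ⟨p, hp, hp0, hp1⟩ := he {α, β}
    exact ((hp.2 _ (hp1 α (by simp)) _ (hp1 β (by simp))).2).symm
  -- the automorphism of the whole graph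
  let F : (Finset ℕ ≃ Finset ℕ) → X → X := fun f y =>
    if hy : ∃ γ, y.1 = fl x γ then ⟨fl x (f hy.choose), gen_fl hx _⟩ else y
  have hF1 : ∀ (f : Finset ℕ ≃ Finset ℕ) (γ : Finset ℕ) (y : X), y.1 = fl x γ →
      (F f y).1 = fl x (f γ) := by
    intro f γ y hy
    have h1 : ∃ γ, y.1 = fl x γ := ⟨γ, hy⟩
    have h2 : h1.choose = γ := fl_injective x (h1.choose_spec.symm.trans hy)
    show (F f y).1 = _
    simp only [F]
    rw [dif_pos h1, h2]
  have hF2 : ∀ (f : Finset ℕ ≃ Finset ℕ) (y : X), (¬ ∃ γ, y.1 = fl x γ) → F f y = y := by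
    intro f y hy
    simp only [F]
    rw [dif_neg hy]
  have hF3 : ∀ (f : Finset ℕ ≃ Finset ℕ) (y : X), F f.symm (F f y) = y := by
    intro f y
    by_cases hy : ∃ γ, y.1 = fl x γ
    · obtain ⟨γ, hγ⟩ := hy
      apply Subtype.ext
      rw [hF1 f.symm (f γ) _ (hF1 f γ y hγ), f.symm_apply_apply, hγ]
    · rw [hF2 f y hy, hF2 f.symm y hy]
  let φ : G ≃g G :=
    { toFun := F e
      invFun := F e.symm
      left_inv := hF3 e
      right_inv := fun y => hF3 e.symm y
      map_rel_iff' := by
        intro y z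
        show G.Adj (F e y) (F e z) ↔ G.Adj y z
        by_cases hy : ∃ γ, y.1 = fl x γ <;> by_cases hz : ∃ γ, z.1 = fl x γ
        · obtain ⟨α, hα⟩ := hy
          obtain ⟨β, hβ⟩ := hz
          have h1 := headj α β
          show RawAdj (F e y).1 (F e z).1 ↔ RawAdj y.1 z.1
          rw [hF1 e α y hα, hF1 e β z hβ, hα, hβ]
          exact h1
        · obtain ⟨α, hα⟩ := hy
          rw [hF2 e z hz]
          constructor
          · intro h
            obtain ⟨γ, _, h2, _⟩ := h
            exfalso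
            apply hz
            rw [hF1 e α y hα, fl_fl] at h2
            exact ⟨_, h2⟩
          · intro h
            obtain ⟨γ, _, h2, _⟩ := h
            exfalso
            apply hz
            rw [hα, fl_fl] at h2
            exact ⟨_, h2⟩
        · obtain ⟨β, hβ⟩ := hz
          rw [hF2 e y hy]
          constructor
          · intro h
            obtain ⟨γ, _, h2, _⟩ := h.symm
            exfalso
            apply hy
            rw [hF1 e β z hβ, fl_fl] at h2
            exact ⟨_, h2⟩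
          · intro h
            obtain ⟨γ, _, h2, _⟩ := h.symm
            exfalso
            apply hy
            rw [hβ, fl_fl] at h2
            exact ⟨_, h2⟩
        · rw [hF2 e y hy, hF2 e z hz] }
  refine ⟨φ, ⟨⟨x, hx⟩, ?_⟩, ?_⟩
  · intro h
    have h1 : (F e ⟨x, hx⟩).1 = fl x (e ∅) := hF1 e ∅ ⟨x, hx⟩ (fl_empty x).symm
    have h2 : (F e ⟨x, hx⟩) = ⟨x, hx⟩ := h
    rw [h2, he0] at h1
    apply hb1'
    apply fl_injective x
    rw [← h1]
    exact (fl_empty x).symm
  · intro y
    show c (F e y) = c y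
    by_cases hy : ∃ γ, y.1 = fl x γ
    · obtain ⟨γ, hγ⟩ := hy
      have h1 : F e y = ⟨fl x (e γ), gen_fl hx _⟩ := Subtype.ext (hF1 e γ y hγ)
      have h2 : y = ⟨fl x γ, gen_fl hx _⟩ := Subtype.ext hγ
      rw [h1]
      conv_rhs => rw [h2]
      exact hecol γ
    · rw [hF2 e y hy]

end Q214.DN
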