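import Pool.Agent.Q214.DN.Basic

/-!
# A Borel graph whose components are generic copies of the Rado graph
-/

open Set Filter Topology

namespace Q214.DN

/-- Cantor space. -/
abbrev C : Type := ℕ → Bool

/-- Changing the digits of `x` at the positions in `γ`. -/
def fl (x : C) (γ : Finset ℕ) : C := fun n => xor (x n) (decide (n ∈ γ))

lemma fl_fl (x : C) (γ δ : Finset ℕ) : fl (fl x γ) δ = fl x (symmDiff γ δ) := by
  funext n
  simp only [fl, Finset.mem_symmDiff]
  by_cases h1 : n ∈ γ <;> by_cases h2 : n ∈ δ <;> simp [h1, h2]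

lemma fl_empty (x : C) : fl x ∅ = x := by
  funext n
  simp [fl]

lemma fl_injective (x : C) : Function.Injective (fl x) := by
  intro γ δ h
  ext n
  have := congrFun h n
  simp only [fl] at this
  by_cases h1 : n ∈ γ <;> by_cases h2 : n ∈ δ <;> simp_all

lemma fl_self (x : C) (γ : Finset ℕ) : fl (fl x γ) γ = x := by
  rw [fl_fl, symmDiff_self]
  exact fl_empty x

lemma continuous_fl (γ : Finset ℕ) : Continuous (fun x : C => fl x γ) := by
  refine continuous_pi fun n => ?_
  exact (continuous_of_discreteTopology (f := fun b : Bool => xor b (decide (n ∈ γ)))).comp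
    (continuous_apply n)

/-- The flip as a homeomorphism. -/
def flH (γ : Finset ℕ) : C ≃ₜ C where
  toFun x := fl x γ
  invFun x := fl x γ
  left_inv x := fl_self x γ
  right_inv x := fl_self x γ
  continuous_toFun := continuous_fl γ
  continuous_invFun := continuous_fl γ

/-- An injective code of a finite set, larger than all its elements. -/
def h (γ : Finset ℕ) : ℕ := ∑ i ∈ γ, 2 ^ i

lemma h_inj : Function.Injective h := Finset.geomSum_injective (le_refl 2)

lemma lt_h {γ : Finset ℕ} {i : ℕ} (hi : i ∈ γ) : i < h γ := by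
  have : 2 ^ i ≤ h γ := Finset.single_le_sum (f := fun i => 2 ^ i) (fun _ _ => Nat.zero_le _) hi
  exact lt_of_lt_of_le Nat.lt_two_pow_self this

lemma h_notMem (γ : Finset ℕ) : h γ ∉ γ := fun hmem => lt_irrefl _ (lt_h hmem)

/-- Adjacency on the Cantor space. -/
def RawAdj (x z : C) : Prop := ∃ γ : Finset ℕ, γ ≠ ∅ ∧ z = fl x γ ∧ x (h γ) = true

lemma rawAdj_symm {x z : C} (hxz : RawAdj x z) : RawAdj z x := by
  obtain ⟨γ, h1, rfl, h3⟩ := hxz
  refine ⟨γ, h1, (fl_self x γ).symm, ?_⟩
  simp [fl, h_notMem, h3]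

lemma rawAdj_irrefl (x : C) : ¬ RawAdj x x := by
  rintro ⟨γ, h1, h2, -⟩
  apply h1
  apply fl_injective x
  rw [← h2, fl_empty]

lemma rawAdj_fl (x : C) (α β : Finset ℕ) :
    RawAdj (fl x α) (fl x β) ↔ α ≠ β ∧ fl x α (h (symmDiff α β)) = true := by
  constructor
  · rintro ⟨γ, h1, h2, h3⟩
    rw [fl_fl] at h2
    have h4 := fl_injective x h2
    have h5 : symmDiff α β = γ := by
      rw [h4, ← symmDiff_assoc, symmDiff_self]
      exact bot_symmDiff γ
    rw [h5]
    refine ⟨?_, h3⟩
    rintro rfl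
    rw [symmDiff_self] at h5
    exact h1 h5.symm
  · rintro ⟨h1, h2⟩
    refine ⟨symmDiff α β, ?_, ?_, h2⟩
    · intro h3
      exact h1 (symmDiff_eq_bot.1 h3)
    · rw [fl_fl, ← symmDiff_assoc, symmDiff_self]
      congr 1
      exact (bot_symmDiff β).symm

/-- One genericity requirement. -/
def Req (q : Finset (Finset ℕ) × Finset (Finset ℕ) × ℕ × Finset ℕ) : Set C :=
  {x | ∃ γ : Finset ℕ, (∀ i < q.2.2.1, (i ∈ γ ↔ i ∈ q.2.2.2)) ∧
    ∀ α ∈ q.1, γ ≠ α ∧ fl x α (h (symmDiff α γ)) = decide (α ∈ q.2.1)}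

/-- Generic points: all components are like the Rado graph. -/
def Gen (x : C) : Prop := ∀ q, x ∈ Req q

lemma isOpen_req (q) : IsOpen (Req q) := by
  have : Req q = ⋃ γ ∈ {γ : Finset ℕ | (∀ i < q.2.2.1, (i ∈ γ ↔ i ∈ q.2.2.2)) ∧
      ∀ α ∈ q.1, γ ≠ α}, ⋂ α ∈ q.1, {x : C | fl x α (h (symmDiff α γ)) = decide (α ∈ q.2.1)} := by
    ext x
    simp only [Req, mem_ofPred_eq, mem_iUnion, mem_iInter, exists_prop]
    constructor
    · rintro ⟨γ, h1, h2⟩
      exact ⟨γ, ⟨h1, fun α hα => (h2 α hα).1⟩, fun α hα => (h2 α hα).2⟩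
    · rintro ⟨γ, ⟨h1, h2⟩, h3⟩
      exact ⟨γ, h1, fun α hα => ⟨h2 α hα, h3 α hα⟩⟩
  rw [this]
  refine isOpen_biUnion fun γ _ => ?_
  refine isOpen_biInter_finset fun α _ => ?_
  have hc : Continuous fun x : C => fl x α (h (symmDiff α γ)) :=
    (continuous_apply (A := fun _ : ℕ => Bool) (h (symmDiff α γ))).comp (continuous_fl α)
  exact (isOpen_discrete {b | b = decide (α ∈ q.2.1)}).preimage hc

lemma cylinder_in_open {U : Set C} (hU : IsOpen U) {x : C} (hx : x ∈ U) :
    ∃ m : ℕ, ∀ y : C, (∀ i < m, y i = x i) → y ∈ U := by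
  rw [isOpen_pi_iff] at hU
  obtain ⟨I, u, hu, hsub⟩ := hU x hx
  obtain ⟨m, hm⟩ := I.bddAbove
  refine ⟨m + 1, fun y hy => hsub ?_⟩
  intro i hi
  have : i ≤ m := hm hi
  rw [hy i (by omega)]
  exact (hu i hi).2

lemma dense_req (q) : Dense (Req q) := by
  obtain ⟨Λ, E, n, s⟩ := q
  rw [dense_iff_inter_open]
  intro U hU ⟨x, hx⟩
  obtain ⟨m, hm⟩ := cylinder_in_open hU hx
  -- a large number
  obtain ⟨k, hk⟩ : ∃ k : ℕ, m ≤ k ∧ n ≤ k ∧ ∀ α ∈ Λ, ∀ i ∈ α, i < k := by
    refine ⟨max (max m n) ((Λ.biUnion id).sup id + 1), ?_, ?_, ?_⟩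
    · exact le_trans (le_max_left _ _) (le_max_left _ _)
    · exact le_trans (le_max_right _ _) (le_max_left _ _)
    · intro α hα i hi
      have : i ≤ (Λ.biUnion id).sup id :=
        Finset.le_sup (f := id) (Finset.mem_biUnion.2 ⟨α, hα, hi⟩)
      exact lt_of_lt_of_le (Nat.lt_succ_of_le this) (le_max_right _ _)
  let γ : Finset ℕ := insert k (s.filter (· < n))
  have hkγ : ∀ α ∈ Λ, k ∈ symmDiff α γ := by
    intro α hα
    rw [Finset.mem_symmDiff]
    right
    exact ⟨Finset.mem_insert_self _ _, fun h => lt_irrefl _ (hk.2.2 α hα k h)⟩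
  have hbig : ∀ α ∈ Λ, k < h (symmDiff α γ) := fun α hα => lt_h (hkγ α hα)
  let y : C := fun i => if i < m then x i else
    decide (∃ α ∈ Λ, i = h (symmDiff α γ) ∧ α ∈ E)
  refine ⟨y, hm y (fun i hi => by simp [y, hi]), γ, ?_, ?_⟩
  · intro i hi
    simp only at hi
    have hik : i ≠ k := by omega
    simp [γ, hik, hi]
  · intro α hα
    simp only at hα
    constructor
    · intro h
      have : k ∈ α := by rw [← h]; exact Finset.mem_insert_self _ _
      exact lt_irrefl _ (hk.2.2 α hα k this)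
    · have h1 : ¬ h (symmDiff α γ) < m := by
        have := hbig α hα
        omega
      have h2 : h (symmDiff α γ) ∉ α := by
        intro hmem
        have h3 := hk.2.2 α hα _ hmem
        have h4 := hbig α hα
        omega
      have h3 : (∃ α' ∈ Λ, h (symmDiff α γ) = h (symmDiff α' γ) ∧ α' ∈ E) ↔ α ∈ E := by
        constructor
        · rintro ⟨α', _, h5, h6⟩
          have h7 := h_inj h5
          have h8 : α = α' := by
            have := congrArg (fun t => symmDiff t γ) h7
            simpa [symmDiff_assoc] using this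
          rw [h8]
          exact h6
        · intro h5
          exact ⟨α, hα, rfl, h5⟩
      simp only [fl, y, if_neg h1, h2, decide_false, Bool.xor_false, h3]

lemma gen_eq : {x | Gen x} = ⋂ q, Req q := by
  ext x
  simp [Gen]

lemma gen_residual : {x | Gen x} ∈ residual C := by
  rw [gen_eq]
  exact countable_iInter_mem.2 fun q => residual_of_dense_open (isOpen_req q) (dense_req q)

lemma gen_measurable : MeasurableSet {x : C | Gen x} := by
  rw [gen_eq]
  exact MeasurableSet.iInter fun q => (isOpen_req q).measurableSet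

/-- Points of a class. -/
lemma gen_fl {x : C} (hx : Gen x) (δ : Finset ℕ) : Gen (fl x δ) := by
  rintro ⟨Λ, E, n, s⟩
  obtain ⟨γ, h1, h2⟩ := hx (Λ.image (symmDiff δ), E.image (symmDiff δ), n, symmDiff s δ)
  simp only at h1 h2
  have hcancel : ∀ t : Finset ℕ, symmDiff δ (symmDiff δ t) = t := fun t => by
    rw [← symmDiff_assoc, symmDiff_self]
    exact bot_symmDiff t
  refine ⟨symmDiff δ γ, ?_, ?_⟩
  · intro i hi
    simp only at hi
    have := h1 i hi
    simp only [Finset.mem_symmDiff] at this ⊢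
    tauto
  · intro α hα
    simp only at hα
    have h3 := h2 (symmDiff δ α) (Finset.mem_image_of_mem _ hα)
    constructor
    · intro h4
      apply h3.1
      rw [← h4, hcancel]
    · have h5 : symmDiff (symmDiff δ α) γ = symmDiff α (symmDiff δ γ) := by
        rw [symmDiff_comm δ α, symmDiff_assoc]
      have h6 : symmDiff δ α ∈ E.image (symmDiff δ) ↔ α ∈ E := by
        rw [Finset.mem_image]
        constructor
        · rintro ⟨β, hβ, h⟩
          have : β = α := by rw [← hcancel β, h, hcancel]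
          rw [← this]
          exact hβ
        · intro h
          exact ⟨α, h, rfl⟩
      have h7 := h3.2
      rw [h5, ← fl_fl] at h7
      simp only
      rw [h7]
      simp only [h6]

/-- The class graph of `x` on the finite sets. -/
def classGraph (x : C) : SimpleGraph (Finset ℕ) where
  Adj α β := RawAdj (fl x α) (fl x β)
  symm := ⟨fun _ _ h => rawAdj_symm h⟩
  loopless := ⟨fun _ h => rawAdj_irrefl _ h⟩

/-- The extension property with a prescribed initial segment. -/
lemma ext_cyl {x : C} (hx : Gen x) (A E : Finset (Finset ℕ)) (m : ℕ) (y : C) :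
    ∃ γ : Finset ℕ, γ ∉ A ∧ (∀ α ∈ A, ((classGraph x).Adj α γ ↔ α ∈ E)) ∧
      ∀ i < m, fl x γ i = y i := by
  obtain ⟨γ, h1, h2⟩ := hx (A, E, m, (Finset.range m).filter (fun i => x i ≠ y i))
  simp only at h1 h2
  refine ⟨γ, ?_, ?_, ?_⟩
  · intro h
    exact (h2 γ h).1 rfl
  · intro α hα
    obtain ⟨h3, h4⟩ := h2 α hα
    show RawAdj (fl x α) (fl x γ) ↔ α ∈ E
    rw [rawAdj_fl, h4]
    simp [Ne.symm h3]
  · intro i hi
    have h3 := h1 i hi
    simp only [Finset.mem_filter, Finset.mem_range, hi, true_and] at h3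
    by_cases hxy : x i = y i
    · have : i ∉ γ := fun hmem => h3.1 hmem hxy
      simp [fl, this, hxy]
    · have : i ∈ γ := h3.2 hxy
      simp only [fl, this, decide_true, Bool.xor_true]
      cases h8 : x i <;> cases h9 : y i <;> simp_all

lemma ep_classGraph {x : C} (hx : Gen x) : EP (classGraph x) := by
  intro A E
  obtain ⟨γ, h1, h2, -⟩ := ext_cyl hx A E 0 x
  exact ⟨γ, h1, h2⟩

end Q214.DN
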